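import Pool.Agent.LCK.Stmts
import Pool.Agent.Helper39_LCK.LCA

set_option autoImplicit false

open Topology

namespace Pool.Agent.LCK.H17

/-- the set of components over a base point -/
def SS {m : ℕ} (H : MvPolynomial (Fin m) ℝ) (q : Polynomial (MvPolynomial (Fin m) ℝ))
    (x : Fin m → ℝ) : Set (Set (Fin (m + 1) → ℝ)) :=
  {C | ∃ t : ℝ, (sp q x).eval t ≠ 0 ∧
    C = connectedComponentIn (WW H q) (Fin.cons (α := fun _ => ℝ) t x)}

theorem mem_WW {m : ℕ} {H : MvPolynomial (Fin m) ℝ} {q : Polynomial (MvPolynomial (Fin m) ℝ)}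
    {x : Fin m → ℝ} {t : ℝ} :
    (Fin.cons (α := fun _ => ℝ) t x : Fin (m + 1) → ℝ) ∈ WW H q ↔
      MvPolynomial.eval x H ≠ 0 ∧ (sp q x).eval t ≠ 0 := by
  unfold WW
  simp only [Set.mem_setOf_eq, Fin.cons_succ, Fin.cons_zero]

theorem joined_eq {X : Type} [TopologicalSpace X] {W : Set X} {a b : X} (h : JoinedIn W a b) :
    connectedComponentIn W a = connectedComponentIn W b := by
  obtain ⟨γ, hγ⟩ := h
  have hpre : IsPreconnected (Set.range γ) := by
    have := isPreconnected_univ.image γ γ.continuous.continuousOn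
    rwa [Set.image_univ] at this
  have hsub : Set.range γ ⊆ W := by
    rintro _ ⟨s, rfl⟩
    exact hγ s
  have ha : a ∈ Set.range γ := ⟨0, γ.source⟩
  have hb : b ∈ Set.range γ := ⟨1, γ.target⟩
  exact connectedComponentIn_eq ((hpre.subset_connectedComponentIn hb hsub) ha) |>.symm

theorem SS_locconst {m : ℕ} {H : MvPolynomial (Fin m) ℝ}
    {q : Polynomial (MvPolynomial (Fin m) ℝ)} (hg : Good H q) (x₁ : Fin m → ℝ)
    (hx₁ : MvPolynomial.eval x₁ H ≠ 0) : ∀ᶠ x in 𝓝 x₁, SS H q x₁ = SS H q x := by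
  filter_upwards [H39.lca m H q hg x₁ hx₁] with x hx
  obtain ⟨h1, h2⟩ := hx
  ext C
  constructor
  · rintro ⟨t₁, ht₁, rfl⟩
    obtain ⟨t, ht, hj⟩ := h2 t₁ ht₁
    exact ⟨t, ht, (joined_eq hj).symm⟩
  · rintro ⟨t, ht, rfl⟩
    obtain ⟨t₁, ht₁, hj⟩ := h1 t ht
    exact ⟨t₁, ht₁, joined_eq hj⟩

theorem SS_const {m : ℕ} {H : MvPolynomial (Fin m) ℝ}
    {q : Polynomial (MvPolynomial (Fin m) ℝ)} (hg : Good H q) {u : Set (Fin m → ℝ)}
    (hu : IsPreconnected u) (hsub : u ⊆ {x | MvPolynomial.eval x H ≠ 0})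
    {x y : Fin m → ℝ} (hx : x ∈ u) (hy : y ∈ u) : SS H q x = SS H q y := by
  refine hu.induction₂ (fun a b => SS H q a = SS H q b) ?_ ?_ ?_ hx hy
  · intro a ha
    exact mem_nhdsWithin_of_mem_nhds (SS_locconst hg a (hsub ha))
  · intro a b c _ _ _ hab hbc
    exact hab.trans hbc
  · intro a b _ _ hab
    exact hab.symm

theorem seg_eq {m : ℕ} {H : MvPolynomial (Fin m) ℝ} {q : Polynomial (MvPolynomial (Fin m) ℝ)}
    {x : Fin m → ℝ} (hx : MvPolynomial.eval x H ≠ 0) {t t' : ℝ} (htt : t ≤ t')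
    (h : ∀ s ∈ Set.Icc t t', (sp q x).eval s ≠ 0) :
    connectedComponentIn (WW H q) (Fin.cons (α := fun _ => ℝ) t x) =
      connectedComponentIn (WW H q) (Fin.cons (α := fun _ => ℝ) t' x) := by
  have hcont : Continuous (fun s : ℝ => (Fin.cons (α := fun _ => ℝ) s x : Fin (m + 1) → ℝ)) := by
    refine continuous_pi ?_
    intro i
    refine Fin.cases ?_ ?_ i
    · exact continuous_id
    · intro j
      exact continuous_const
  have hpre : IsPreconnected
      ((fun s : ℝ => (Fin.cons (α := fun _ => ℝ) s x : Fin (m + 1) → ℝ)) '' Set.Icc t t') :=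
    isPreconnected_Icc.image _ hcont.continuousOn
  have hsub : ((fun s : ℝ => (Fin.cons (α := fun _ => ℝ) s x : Fin (m + 1) → ℝ)) '' Set.Icc t t') ⊆
      WW H q := by
    rintro _ ⟨s, hs, rfl⟩
    exact mem_WW.2 ⟨hx, h s hs⟩
  have ha := Set.mem_image_of_mem (fun s : ℝ => (Fin.cons (α := fun _ => ℝ) s x : Fin (m + 1) → ℝ))
    (Set.left_mem_Icc.2 htt)
  have hb := Set.mem_image_of_mem (fun s : ℝ => (Fin.cons (α := fun _ => ℝ) s x : Fin (m + 1) → ℝ))
    (Set.right_mem_Icc.2 htt)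
  exact connectedComponentIn_eq ((hpre.subset_connectedComponentIn ha hsub) hb)

open Classical in
/-- zeros below a parameter -/
noncomputable def below (p : Polynomial ℝ) (t : ℝ) : Finset ℝ :=
  p.roots.toFinset.filter (fun r => r < t)

theorem below_noroot {p : Polynomial ℝ} (hp : p ≠ 0) {t t' : ℝ} (ht : p.eval t ≠ 0)
    (ht' : p.eval t' ≠ 0) (hb : below p t = below p t') :
    ∀ s ∈ Set.Icc t t', p.eval s ≠ 0 := by
  intro s hs h0
  have hst : s ≠ t := fun h => ht (h ▸ h0)
  have hst' : s ≠ t' := fun h => ht' (h ▸ h0)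
  have h1 : t < s := lt_of_le_of_ne hs.1 (Ne.symm hst)
  have h2 : s < t' := lt_of_le_of_ne hs.2 hst'
  have hroot : s ∈ p.roots.toFinset := by
    rw [Multiset.mem_toFinset, Polynomial.mem_roots hp]
    exact h0
  have hm : s ∈ below p t' := by
    unfold below
    rw [Finset.mem_filter]
    exact ⟨hroot, h2⟩
  rw [← hb] at hm
  unfold below at hm
  rw [Finset.mem_filter] at hm
  exact absurd hm.2 (not_lt.2 h1.le)

theorem SS_finite {m : ℕ} {H : MvPolynomial (Fin m) ℝ}
    {q : Polynomial (MvPolynomial (Fin m) ℝ)} (hg : Good H q) (x : Fin m → ℝ)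
    (hx : MvPolynomial.eval x H ≠ 0) : (SS H q x).Finite := by
  classical
  have hq : sp q x ≠ 0 := by
    intro h0
    have h1 := (hg x hx).1
    apply h1
    have h2 : (sp q x).coeff q.natDegree = MvPolynomial.eval x q.leadingCoeff := by
      unfold sp
      rw [Polynomial.coeff_map, Polynomial.coeff_natDegree]
    rw [← h2, h0, Polynomial.coeff_zero]
  have key : ∀ t t' : ℝ, (sp q x).eval t ≠ 0 → (sp q x).eval t' ≠ 0 →
      below (sp q x) t = below (sp q x) t' →
      connectedComponentIn (WW H q) (Fin.cons (α := fun _ => ℝ) t x) =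
      connectedComponentIn (WW H q) (Fin.cons (α := fun _ => ℝ) t' x) := by
    intro t t' ht ht' hb
    rcases le_total t t' with h | h
    · exact seg_eq hx h (below_noroot hq ht ht' hb)
    · exact (seg_eq hx h (below_noroot hq ht' ht hb.symm)).symm
  let g : Finset ℝ → Set (Fin (m + 1) → ℝ) := fun B =>
    if h : ∃ t : ℝ, (sp q x).eval t ≠ 0 ∧ below (sp q x) t = B then
      connectedComponentIn (WW H q) (Fin.cons (α := fun _ => ℝ) h.choose x) else ∅
  have hfin : (g '' (((sp q x).roots.toFinset.powerset : Finset (Finset ℝ)) :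
      Set (Finset ℝ))).Finite := (Finset.finite_toSet _).image g
  refine hfin.subset ?_
  rintro C ⟨t, ht, rfl⟩
  refine ⟨below (sp q x) t, ?_, ?_⟩
  · rw [Finset.mem_coe, Finset.mem_powerset]
    unfold below
    exact Finset.filter_subset _ _
  · have hex : ∃ t' : ℝ, (sp q x).eval t' ≠ 0 ∧ below (sp q x) t' = below (sp q x) t :=
      ⟨t, ht, rfl⟩
    have hgB : g (below (sp q x) t) =
        connectedComponentIn (WW H q) (Fin.cons (α := fun _ => ℝ) hex.choose x) := dif_pos hex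
    rw [hgB]
    exact key _ _ hex.choose_spec.1 ht hex.choose_spec.2

theorem lcb : LCBStmt := by
  classical
  intro m H q hg hF
  obtain ⟨F, hfin, hF1, hF2⟩ := hF
  let T : Set (Fin m → ℝ) → Set (Set (Fin (m + 1) → ℝ)) := fun u =>
    if h : u.Nonempty then SS H q h.choose else ∅
  refine ⟨⋃ u ∈ F, T u, ?_, ?_, ?_⟩
  · refine hfin.biUnion ?_
    intro u hu
    by_cases h : u.Nonempty
    · have hT : T u = SS H q h.choose := dif_pos h
      rw [hT]
      exact SS_finite hg _ ((hF1 u hu).2 h.choose_spec)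
    · have hT : T u = ∅ := dif_neg h
      rw [hT]
      exact Set.finite_empty
  · intro C hC
    rw [Set.mem_iUnion₂] at hC
    obtain ⟨u, hu, hC⟩ := hC
    by_cases h : u.Nonempty
    · have hT : T u = SS H q h.choose := dif_pos h
      rw [hT] at hC
      obtain ⟨t, ht, rfl⟩ := hC
      exact ⟨isPreconnected_connectedComponentIn, connectedComponentIn_subset _ _⟩
    · have hT : T u = ∅ := dif_neg h
      rw [hT] at hC
      exact absurd hC (Set.notMem_empty _)
  · intro y hy
    have hy0 : (Fin.cons (α := fun _ => ℝ) (y 0) (fun i => y i.succ) : Fin (m + 1) → ℝ) = y :=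
      Fin.cons_self_tail y
    have hx : (fun i => y i.succ) ∈ {x : Fin m → ℝ | MvPolynomial.eval x H ≠ 0} := hy.1
    obtain ⟨u, hu, hxu⟩ := hF2 hx
    have hne : u.Nonempty := ⟨_, hxu⟩
    have hT : T u = SS H q hne.choose := dif_pos hne
    have hSS : SS H q (fun i => y i.succ) = SS H q hne.choose :=
      SS_const hg (hF1 u hu).1 (hF1 u hu).2 hxu hne.choose_spec
    refine ⟨connectedComponentIn (WW H q) y, ?_, mem_connectedComponentIn hy⟩
    rw [Set.mem_iUnion₂]
    refine ⟨u, hu, ?_⟩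
    rw [hT, ← hSS]
    exact ⟨y 0, hy.2, by rw [hy0]⟩

end Pool.Agent.LCK.H17
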